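import Pool.Agent.X12.Lng6

/-!
# The strong Lang-Silverman alternative, with uniform constants, for all forms over `ℚ` of the powers of
# almost all elliptic curves over `ℚ`, ordered by height

`E : y² = x³ - a x - b` is the short minimal model of an elliptic curve over `ℚ`, of arbitrary (also
additive) reduction, `h(E) = max (4 |a|³, 27 b²)` its naive height (`naive`) and `M(E)` the product of
its bad primes `p ≥ 5` (`Bad6`).  There are `H ^ (5 / 6 + o(1))` curves with `h(E) ≤ H`; all but
`O(H ^ (2 / 3 + ε))` of them satisfy `M(E) > 10 h(E) ^ (3 / 4)`.  For all elliptic curves with this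
property and all `g` the strong Lang-Silverman alternative holds, with constants `c₁ > 0` and `c₂` which
depend only on `g`, for all forms over `ℚ` of `E ^ g`, all polarizations and all rational points.

A finite Galois extension `L` of `ℚ` and a faithful representation `ρ` of its group by integral
matrices of size `g` define an abelian variety `A` over `ℚ`, the form of `E ^ g` with
`A(ℚ) = {P ∈ E(L) ^ g | ρ(σ) σ(P) = P for all σ}` (`FixedPt ρ P`); for `g = 1` these are `E` and all its
quadratic twists.  A symmetric positive definite integral matrix `M` with `ρ(σ)ᵀ M ρ(σ) = M`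
(`Polar ρ M`) is a polarization of `A` over `ℚ`; the corresponding absolute canonical height is
`chatM M P / [L : ℚ]`, where `chatM M P = ∑ M i j ⟨P i, P j⟩` with the bilinear form of `chat`, the limit
of `h(x(2 ^ k P)) / 4 ^ k` (`h` relative to `L`).

`SubvarLe c ρ M P` is the first alternative: the columns of the primitive integral matrix `β` of
size `g × m`, `m < g`, span a sublattice stable under `ρ`, and so define an abelian subvariety
`B` over `ℚ` of dimension `m`, its degree for the polarization is at most `c` times that of `A`, and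
`n P` is in `B` for some positive `n ≤ c`.  `Pts L a b` is the group of the points over `L` of
`y² = x³ + a x + b`, `RamPrimes ℚ T` says that for each prime `v` in `T` there is `σ ≠ 1` in the inertia
group, and `logNorms T` is the sum of `log N v`, `v ∈ T`.

New here is the count of the curves with few bad primes near the top of a box (files `X12/Szp21`,
`X12/Szp22`); the alternative follows, if `M(E) > 10 h(E) ^ (3 / 4)`, from the theorem of the starting
files under a truncated Szpiro-type bound (`Y725/LS/Final`).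
-/

set_option autoImplicit false

namespace Pool.Agent.Results.MP_f5471b_nt.AlmostAllCurvesByHeight

open Pool.Agent.TH910.LS NumberField IsDedekindDomain Filter Topology

/-- the discriminant of `x³ - a x - b` -/
def Disc (a b : ℤ) : ℤ := 4 * a ^ 3 - 27 * b ^ 2

/-- `y² = x³ - a x - b` is an elliptic curve and `|Disc|` is least among the integral models
`y² = x³ - a' x - b'`, `a' = u⁴ a`, `b' = u⁶ b`, `u ∈ ℚ^×`. Every elliptic curve over `ℚ` has exactly
one such model. -/
def IsMinimal (a b : ℤ) : Prop :=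
  Disc a b ≠ 0 ∧ ∀ (u : ℚ) (a' b' : ℤ), u ≠ 0 → (a' : ℚ) = u ^ 4 * a → (b' : ℚ) = u ^ 6 * b →
    |Disc a b| ≤ |Disc a' b'|

/-- the product of the bad primes `p ≥ 5` of a minimal model, that is of the primes `p ≥ 5` dividing
`Disc` -/
def Bad6 (a b : ℤ) : ℕ := ∏ p ∈ (Disc a b).natAbs.primeFactors.filter (fun p => 5 ≤ p), p

/-- the naive height -/
noncomputable def naive (q : ℤ × ℤ) : ℝ := max (4 * |(q.1 : ℝ)| ^ 3) (27 * (q.2 : ℝ) ^ 2)

/-- the elliptic curves over `ℚ` (minimal models) of naive height at most `H` -/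
def Curves (H : ℝ) : Set (ℤ × ℤ) := {q | IsMinimal q.1 q.2 ∧ naive q ≤ H}

/-- those with few bad primes: `M(E) ≤ 10 h(E) ^ (3 / 4)` -/
def Exceptional (H : ℝ) : Set (ℤ × ℤ) :=
  {q | IsMinimal q.1 q.2 ∧ naive q ≤ H ∧ (Bad6 q.1 q.2 : ℝ) ≤ 10 * naive q ^ (3 / 4 : ℝ)}

/-- the coefficient `- n`, as an element of the ring of integers of `ℚ` -/
noncomputable def coeff (n : ℤ) : 𝓞 ℚ := ((-n : ℤ) : 𝓞 ℚ)

/-- the alternative, with the constants `c₁` and `c₂`, for all forms over `ℚ` of dimension `g` of the
powers of `y² = x³ - a x - b`, `q = (a, b)`, all polarizations and all rational points -/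
def Alternative (c₁ : ℝ) (c₂ g : ℕ) (q : ℤ × ℤ) : Prop :=
  ∀ (L : Type) [Field L] [NumberField L] [IsGalois ℚ L] [DecidableEq L]
    (ρ : (L ≃ₐ[ℚ] L) →* Matrix (Fin g) (Fin g) ℤ) (M : Matrix (Fin g) (Fin g) ℤ)
    (P : Fin g → Pts L (coeff q.1) (coeff q.2)) (T : Finset (HeightOneSpectrum (𝓞 L))),
    Faithful ρ → Polar ρ M → FixedPt ρ P → RamPrimes ℚ T →
      SubvarLe c₂ ρ M P ∨
      (¬ IsOfFinAddOrder P ∧
        c₁ * (1 + Real.log (naive q) + logNorms T / Module.finrank ℚ L) ≤
          chatM M P / Module.finrank ℚ L)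

/-- **Theorem.**  (1) There are `H ^ (5 / 6 + o(1))` elliptic curves over `ℚ` of naive height at most
`H`.  (2) At most `C H ^ (2 / 3 + ε)` of them are exceptional.  (3) For every `g ≥ 1` there are
constants `c₁ > 0` and `c₂` such that the strong Lang-Silverman alternative holds for all forms over `ℚ`
of `E ^ g`, for every elliptic curve `E` over `ℚ` which is not exceptional. -/
theorem result :
    Tendsto (fun H : ℝ => Real.log ((Curves H).ncard : ℝ) / Real.log H) atTop (𝓝 (5 / 6)) ∧
    (∀ ε : ℝ, 0 < ε → ∃ C : ℝ, 0 < C ∧ ∀ H : ℝ, 1 ≤ H → (Exceptional H).Finite ∧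
      ((Exceptional H).ncard : ℝ) ≤ C * H ^ (2 / 3 + ε)) ∧
    ∀ g : ℕ, 0 < g → ∃ c₁ : ℝ, 0 < c₁ ∧ ∃ c₂ : ℕ, ∀ q : ℤ × ℤ, IsMinimal q.1 q.2 →
      10 * naive q ^ (3 / 4 : ℝ) < (Bad6 q.1 q.2 : ℝ) → Alternative c₁ c₂ g q := by
  refine ⟨Pool.Agent.X12.Lng.CN_tendsto, fun ε hε => ?_, fun g hg => ?_⟩
  · obtain ⟨C, hC, h⟩ := Pool.Agent.X12.Lng.XN_upper ε hε
    exact ⟨C, hC, fun H hH => ⟨(Pool.Agent.X12.Lng.CN_finite H).subset
      fun q hq => ⟨hq.1, hq.2.1⟩, h H hH⟩⟩
  · obtain ⟨c₁, hc₁, c₂, h⟩ := Pool.Agent.X12.Lng.alt_main g hg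
    exact ⟨c₁, hc₁, c₂, fun q hq hM => h q hq.1 hM⟩

end Pool.Agent.Results.MP_f5471b_nt.AlmostAllCurvesByHeight
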