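import Mathlib
import Pool.Agent.X295.LsB
import Pool.Agent.X295.LsC
import Pool.Agent.Results.MP_f5471b_nt.StrongFormsSzpiroRatio

/-!
# MP_f5471b_nt: the strong Lang-Silverman alternative for almost all members of all families of elliptic curves
# with any number of parameters

Let `K₀` be a number field of degree `d` and `j = F/G` a rational function over `K₀` in `m` variables.

(1) If `j` is not a polynomial, then for all but `O(H^(d m - 1 + δ))` of the `≍ H^(d m)` vectors `x` of integers of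
`K₀` with coordinates at most `H`, the alternative holds, with the same constants `c₁` and `c₂`, for all forms over `K`
(in particular all twists) of the powers of all elliptic curves with the invariant `j(x)` over all extensions `K` of
`K₀` with `[K : ℚ] ≤ D`.

(2) If `j` is not constant, the same holds for all but `O(H^(d (m + 1) - 1 + δ))` of the vectors
`t = (x_1 / x_0, …, x_m / x_0)`, where the `x_i` are integers of `K₀` with coordinates at most `H`.

Proof. For most `x` the product of the primes below the poles of `j(x)` is at least `H^ε`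
(`Pool.Agent.X295.LsA`), while the height of `j(x)` is at most `C (1 + log H)`.  This is the truncated Szpiro-type
bound in the starting theorem `StrongFormsSzpiroRatio`.

The curve is `y² = x³ + a x + b`, `a`, `b` integers of `K` with `h(a) + h(b) ≤ κ (1 + h(j))`.  A finite Galois
extension `L` of `K` and a faithful representation `ρ` of its group by integral matrices of size `g` define an abelian
variety `A` over `K`, the form of `E ^ g` with `A(K) = {P ∈ E(L) ^ g | ρ(σ) σ(P) = P for all σ}` (`FixedPt ρ P`).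
A symmetric positive definite integral matrix `M` with `ρ(σ)ᵀ M ρ(σ) = M` (`Polar ρ M`) is a polarization of `A` over
`K`, of degree `g! * det M`; the corresponding absolute canonical height is `chatM M P / [L : ℚ]`.
`SubvarLe c ρ M P` is the alternative (a): there are `m < g` and an integral matrix `β` with `m` columns, which has an
integral left inverse and whose columns span a subgroup stable under `ρ`, so that `B = β(E ^ m)` is an abelian
subvariety of `A` over `K`, of degree `m! * det (βᵀ M β) ≤ c * (g! * det M)`, and `n P = β Q` for some `1 ≤ n ≤ c`.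
-/

set_option autoImplicit false

open Pool.Agent.TH910.LS Pool.Agent.Y725.LS NumberField IsDedekindDomain

namespace Pool.Agent.Results.MP_f5471b_nt.FamiliesSeveralParameters

/-- The alternative, with the constants `c₁` and `c₂`, for all forms of dimension `g` of the powers of the
elliptic curves `y² = x³ + a x + b` with the invariant `j`, over all extensions of `K₀` of degree at most `D`
over `ℚ`. -/
def Alternative (c₁ : ℝ) (c₂ D g : ℕ) (κ : ℝ) {K₀ : Type} [Field K₀] [NumberField K₀] (j : K₀) :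
    Prop :=
  ∀ (K : Type) [Field K] [NumberField K] [Algebra K₀ K], Module.finrank ℚ K ≤ D →
  ∀ a b : 𝓞 K, 4 * (a : K) ^ 3 + 27 * (b : K) ^ 2 ≠ 0 → jinv (a : K) b = algebraMap K₀ K j →
    absH (a : K) + absH (b : K) ≤ κ * (1 + absH (jinv (a : K) b)) →
  ∀ (L : Type) [Field L] [NumberField L] [Algebra K L] [IsGalois K L] [DecidableEq L],
    ChatLim L a b ∧
    ∀ (ρ : (L ≃ₐ[K] L) →* Matrix (Fin g) (Fin g) ℤ) (M : Matrix (Fin g) (Fin g) ℤ)
      (P : Fin g → Pts L a b) (T : Finset (HeightOneSpectrum (𝓞 L))),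
      Faithful ρ → Polar ρ M → FixedPt ρ P → RamPrimes K T →
        SubvarLe c₂ ρ M P ∨
        (¬ IsOfFinAddOrder P ∧
          c₁ * (1 + absH (jinv (a : K) b) + logNorms T / Module.finrank ℚ L) ≤
            chatM M P / Module.finrank ℚ L)

section
variable {K₀ : Type} [Field K₀] [NumberField K₀] {ι : Type} [Fintype ι] {m : ℕ}

/-- All coordinates of all `x_i` in the basis `ω` are at most `H`. -/
def InBox (ω : Module.Basis ι ℤ (𝓞 K₀)) {n : ℕ} (H : ℕ) (x : Fin n → 𝓞 K₀) : Prop :=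
  ∀ i k, |ω.repr (x i) k| ≤ H

/-- The vectors of integers `x` of `K₀` in the box, `G(x) ≠ 0`, for which the alternative does not hold for
the invariant `F(x) / G(x)`. -/
def IntegralExceptions (ω : Module.Basis ι ℤ (𝓞 K₀)) (F G : MvPolynomial (Fin m) K₀) (c₁ : ℝ)
    (c₂ D g : ℕ) (κ : ℝ) (H : ℕ) : Set (Fin m → 𝓞 K₀) :=
  {x | InBox ω H x ∧ MvPolynomial.eval (fun i => (x i : K₀)) G ≠ 0 ∧
    ¬ Alternative c₁ c₂ D g κ (MvPolynomial.eval (fun i => (x i : K₀)) F /
      MvPolynomial.eval (fun i => (x i : K₀)) G)}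

/-- The vectors `t = (x_1 / x_0, …, x_m / x_0)`, where the `x_i` are integers of `K₀` in the box and
`G(t) ≠ 0`, for which the alternative does not hold for the invariant `F(t) / G(t)`. -/
def FieldExceptions (ω : Module.Basis ι ℤ (𝓞 K₀)) (F G : MvPolynomial (Fin m) K₀) (c₁ : ℝ)
    (c₂ D g : ℕ) (κ : ℝ) (H : ℕ) : Set (Fin m → K₀) :=
  {t | (∃ x : Fin (m + 1) → 𝓞 K₀, x 0 ≠ 0 ∧ InBox ω H x ∧
      ∀ i, t i = (x i.succ : K₀) / (x 0 : K₀)) ∧ MvPolynomial.eval t G ≠ 0 ∧
    ¬ Alternative c₁ c₂ D g κ (MvPolynomial.eval t F / MvPolynomial.eval t G)}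

theorem subvar_mono {K : Type} [Field K] [NumberField K] {a b : 𝓞 K} {g : ℕ} {L : Type}
    [Field L] [NumberField L] [Algebra K L] [DecidableEq L] {c c' : ℕ} (h : c ≤ c')
    {ρ : (L ≃ₐ[K] L) →* Matrix (Fin g) (Fin g) ℤ} {M : Matrix (Fin g) (Fin g) ℤ}
    {P : Fin g → Pts L a b} (hM : Polar ρ M) (hs : SubvarLe c ρ M P) : SubvarLe c' ρ M P := by
  obtain ⟨m, β, hm, h1, h2, h3, n, hn0, hn, h4⟩ := hs
  have hdet : 0 < M.det := by
    have h5 := hM.1.det_pos
    have h6 : (M.map (Int.cast : ℤ → ℝ)).det = (M.det : ℝ) := by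
      have := (Int.castRingHom ℝ).map_det M
      simp only [eq_intCast] at this
      rw [this]
      rfl
    rw [h6] at h5
    exact_mod_cast h5
  refine ⟨m, β, hm, h1, h2, h3.trans ?_, n, hn0, hn.trans h, h4⟩
  have h7 : (c : ℤ) ≤ c' := by exact_mod_cast h
  have h8 : (0 : ℤ) < (g.factorial : ℤ) := by exact_mod_cast Nat.factorial_pos g
  exact mul_le_mul_of_nonneg_right h7 (by positivity)

theorem alternative {D g : ℕ} (hg : 0 < g) {κ : ℝ} (hκ : 0 ≤ κ) {σ : ℝ} (hσ : 0 ≤ σ) :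
    ∃ (c₁ : ℝ) (c₂ : ℕ), 0 < c₁ ∧
      ∀ j : K₀, Pool.Agent.X295.Gal.ManyPoles σ j → Alternative c₁ c₂ D g κ j := by
  obtain ⟨c, δ, hc, hδ, c₂, h⟩ :=
    Pool.Agent.Results.MP_f5471b_nt.StrongFormsSzpiroRatio.result D g 0 hg κ (D * σ) hκ
  obtain ⟨A, c', hc', c₂', h⟩ := h 1 one_ne_zero
  refine ⟨min c c', max c₂ c₂', lt_min hc hc',
    fun j hj K _ _ _ hK a b hab hjab hh L _ _ _ _ _ => ?_⟩
  have hSz := Pool.Agent.X295.Gal.szp hσ hj D K hK hab hjab L hδ.le
  obtain ⟨h1, h2⟩ := h K hK a b hab hh L hSz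
  refine ⟨h1, fun ρ M P T hf hM hP hT => ?_⟩
  have hpos : 0 ≤ 1 + absH (jinv (a : K) b) + logNorms T / Module.finrank ℚ L := by
    have h2 : 0 ≤ absH (jinv (a : K) b) :=
      div_nonneg (Height.zero_le_logHeight₁ _) (Nat.cast_nonneg _)
    have h3 : 0 ≤ logNorms T / Module.finrank ℚ L :=
      div_nonneg (Finset.sum_nonneg fun _ _ => Real.log_natCast_nonneg _) (Nat.cast_nonneg _)
    linarith
  rcases h2 ρ M P T hf hM hP hT with k | ⟨k1, k2⟩
  · left
    split_ifs at k
    · exact subvar_mono (le_max_left _ _) hM k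
    · exact subvar_mono (le_max_right _ _) hM k
  · right
    refine ⟨k1, le_trans (mul_le_mul_of_nonneg_right ?_ hpos) k2⟩
    split_ifs
    · exact min_le_left _ _
    · exact min_le_right _ _

end

/-- **The alternative for almost all members of a family.** -/
theorem result (K₀ : Type) [Field K₀] [NumberField K₀] {ι : Type} [Fintype ι]
    (ω : Module.Basis ι ℤ (𝓞 K₀)) (m : ℕ) (F G : MvPolynomial (Fin m) K₀) (hG : G ≠ 0)
    (D g : ℕ) (hg : 0 < g) (κ : ℝ) (hκ : 0 ≤ κ) (δ : ℝ) (hδ : 0 < δ) :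
    (¬ G ∣ F → ∃ (c₁ : ℝ) (c₂ : ℕ) (C : ℝ), 0 < c₁ ∧ ∀ H : ℕ, 1 ≤ H →
      (IntegralExceptions ω F G c₁ c₂ D g κ H).Finite ∧
      ((IntegralExceptions ω F G c₁ c₂ D g κ H).ncard : ℝ) ≤
        C * (H : ℝ) ^ ((m : ℝ) * Module.finrank ℚ K₀ - 1 + δ)) ∧
    ((∀ a : K₀, F ≠ MvPolynomial.C a * G) → ∃ (c₁ : ℝ) (c₂ : ℕ) (C : ℝ), 0 < c₁ ∧
      ∀ H : ℕ, 1 ≤ H →
      (FieldExceptions ω F G c₁ c₂ D g κ H).Finite ∧
      ((FieldExceptions ω F G c₁ c₂ D g κ H).ncard : ℝ) ≤
        C * (H : ℝ) ^ (((m : ℝ) + 1) * Module.finrank ℚ K₀ - 1 + δ)) := by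
  constructor
  · intro hFG
    obtain ⟨σ, C, hσ, -, hC⟩ := Pool.Agent.X295.Gal.many_poles_OK ω F G hG hFG hδ
    obtain ⟨c₁, c₂, hc, h⟩ := alternative (K₀ := K₀) (D := D) hg hκ hσ
    refine ⟨c₁, c₂, C, hc, fun H hH => hC H hH _ ?_⟩
    rintro x ⟨h1, h2, h3⟩
    exact ⟨h1, h2, fun h4 => h3 (h _ h4)⟩
  · intro hFG
    obtain ⟨σ, C, hσ, -, hC⟩ := Pool.Agent.X295.Gal.many_poles_K ω F G hG hFG hδ
    obtain ⟨c₁, c₂, hc, h⟩ := alternative (K₀ := K₀) (D := D) hg hκ hσ
    refine ⟨c₁, c₂, C, hc, fun H hH => hC H hH _ ?_⟩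
    rintro t ⟨h1, h2, h3⟩
    exact ⟨h1, h2, fun h4 => h3 (h _ h4)⟩

end Pool.Agent.Results.MP_f5471b_nt.FamiliesSeveralParameters
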