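import Pool.Agent.X39.Win.Ell
import Pool.Agent.Results.MP_f5471b_nt.AlmostAllCurvesByHeight

/-!
# The strong Lang-Silverman alternative for all forms of the powers of ALL elliptic curves over `ℚ` in
# small boxes

Let `v ≥ 1` be a sequence with exponent of convergence at most `τ` (for `v_n = n ^ k` this is `1 / k`,
for `v_n = b ^ n` it is `0`) and `θ₁ + θ₂ + τ < 1`. For almost all points `(α, β)` of the plane, for all
large `n`, the strong Lang-Silverman alternative, with constants which depend only on `g`, holds for all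
forms over `ℚ` of `E ^ g`, for ALL elliptic curves `E : y² = x³ - a x - b` over `ℚ` (minimal models,
arbitrary reduction) in the boxes `|a - α v_n ^ 2| ≤ v_n ^ θ₁`, `|b - β v_n ^ 3| ≤ v_n ^ θ₂`.
-/

set_option autoImplicit false

open MeasureTheory

namespace Pool.Agent.Results.MP_f5471b_nt.WindowsWithoutExceptions

open AlmostAllCurvesByHeight

/-- the exponent of convergence of the sequence `v` is at most `τ` -/
def ExpLe (v : ℕ → ℝ) (τ : ℝ) : Prop := ∀ t : ℝ, τ < t → Summable (fun n : ℕ => (v n) ^ (-t))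

/-- `(a, b)` is in the box `|a - α x ^ 2| ≤ x ^ θ₁`, `|b - β x ^ 3| ≤ x ^ θ₂`, `p = (α, β)` -/
def InBox (p : ℝ × ℝ) (x θ₁ θ₂ : ℝ) (q : ℤ × ℤ) : Prop :=
  |(q.1 : ℝ) - p.1 * x ^ 2| ≤ x ^ θ₁ ∧ |(q.2 : ℝ) - p.2 * x ^ 3| ≤ x ^ θ₂

/-- **Theorem.** There are constants `c₁(g) > 0` and `c₂(g)`, depending only on `g`, such that for every
sequence `v ≥ 1` with exponent of convergence at most `τ`, all `θ₁ ≤ 2` and `θ₂ ≤ 3` with
`τ + θ₁ + θ₂ < 1`, for almost all `(α, β)` and all large `n`, the strong Lang-Silverman alternative holds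
for ALL elliptic curves `E` over `ℚ` in the box around `(α v_n ^ 2, β v_n ^ 3)` with sides `2 v_n ^ θ₁`,
`2 v_n ^ θ₂`, all `g ≥ 1`, all forms over `ℚ` of `E ^ g`, all polarizations and all rational points. The
sequences `v_n = (n + 1) ^ k` and `v_n = b ^ n` have exponent of convergence at most `1 / k` and `0`. -/
theorem result :
    (∃ (c₁ : ℕ → ℝ) (c₂ : ℕ → ℕ), (∀ g, 0 < c₁ g) ∧
      ∀ (v : ℕ → ℝ) (τ θ₁ θ₂ : ℝ), (∀ n, 1 ≤ v n) → ExpLe v τ → θ₁ ≤ 2 → θ₂ ≤ 3 →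
      τ + θ₁ + θ₂ < 1 →
      ∀ᵐ p : ℝ × ℝ, ∃ n₀ : ℕ, ∀ n : ℕ, n₀ ≤ n → ∀ q : ℤ × ℤ,
        IsMinimal q.1 q.2 → InBox p (v n) θ₁ θ₂ q → ∀ g : ℕ, 0 < g →
          Alternative (c₁ g) (c₂ g) g q) ∧
    (∀ k : ℝ, 0 < k → ExpLe (fun n : ℕ => ((n : ℝ) + 1) ^ k) (1 / k)) ∧
    (∀ b : ℝ, 1 < b → ExpLe (fun n : ℕ => b ^ n) 0) := by
  refine ⟨?_, fun κ hκ => Pool.Agent.Y854.GM.expLe_pow κ hκ,
    fun b hb => Pool.Agent.Y854.GM.expLe_geom b hb⟩
  have hex : ∀ g : ℕ, ∃ (c₁ : ℝ) (c₂ : ℕ), 0 < c₁ ∧ (0 < g → ∀ q : ℤ × ℤ, IsMinimal q.1 q.2 →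
      10 * naive q ^ (3 / 4 : ℝ) < (Bad6 q.1 q.2 : ℝ) → Alternative c₁ c₂ g q) := by
    intro g
    rcases Nat.eq_zero_or_pos g with rfl | hg
    · exact ⟨1, 0, one_pos, fun h => absurd h (lt_irrefl 0)⟩
    · obtain ⟨c₁, hc₁, c₂, h⟩ := AlmostAllCurvesByHeight.result.2.2 g hg
      exact ⟨c₁, c₂, hc₁, fun _ => h⟩
  choose c₁ c₂ hc₁ hmain using hex
  refine ⟨c₁, c₂, hc₁, fun v τ θ₁ θ₂ hv hE h1 h2 hs => ?_⟩
  have hT : Pool.Agent.X39.Win.Thin Pool.Agent.X12.Lng.SX 4 := by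
    intro ε hε
    obtain ⟨K, -, h⟩ := Pool.Agent.X12.Lng.SX_box ε hε
    exact ⟨K, h⟩
  filter_upwards [Pool.Agent.X39.Win.pairs _ hT hv hE h1 h2 (by linarith)] with p hp
  obtain ⟨n₀, hn⟩ := hp
  refine ⟨n₀, fun n hn1 q hq hb g hg => hmain g hg q hq ?_⟩
  by_contra hcon
  push Not at hcon
  exact hn n hn1 q ⟨hq, hcon⟩ hb

end Pool.Agent.Results.MP_f5471b_nt.WindowsWithoutExceptions
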